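import Pool.Agent.Work.MP_db9399_lf_helper6.LABF
import Pool.Agent.Work.MP_db9399_sw.Ov

/-!
# MP_db9399, block LABQ: random labels for finitely many graphs with functional tests (helper21)

Base: `LABT` of helper6. The tests use McDiarmid's inequality (`Stmt_PBM`).
-/

set_option autoImplicit false

namespace Pool.Agent.Work.MP_db9399_sw.helper21

open Finset Classical
open Pool.Agent.Work.MP_db9399_all (nb pr DepOnI PackI)
open Pool.Agent.Work.MP_db9399_px (LWalk hit ee ff GoodF cc atm per Blocks lball PropX PropV avg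
  Stmt_BALL Stmt_LPKX Stmt_LPKV Stmt_LNUM Stmt_PBM)
open Pool.Agent.Work.MP_db9399_bg (den cl LabP Good den_nonneg den_le_one)
open Pool.Agent.Work.MP_db9399_lf.helper6 (LabP_rescale)

universe u

/-- all fibres of `x ↦ per M x z` have the same positive size -/
theorem fiber_card (M : ℕ) (z : Fin M) : ∃ K : ℕ, 0 < K ∧ ∀ a : Fin M,
    (univ.filter (fun x : Fin (M.factorial) => per M x z = a)).card = K := by
  refine ⟨(univ.filter (fun x : Fin (M.factorial) => per M x z = z)).card, ?_, ?_⟩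
  · apply Finset.card_pos.2
    refine ⟨(per M).symm 1, ?_⟩
    simp
  · intro a
    refine Finset.card_bij' (fun x _ => (per M).symm (Equiv.swap a z * per M x))
      (fun x _ => (per M).symm (Equiv.swap a z * per M x)) ?_ ?_ ?_ ?_
    · intro x hx
      simp only [mem_filter, mem_univ, true_and] at hx ⊢
      simp [hx]
    · intro x hx
      simp only [mem_filter, mem_univ, true_and] at hx ⊢
      simp [hx]
    · intro x _
      simp [← mul_assoc]
    · intro x _
      simp [← mul_assoc]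

theorem sum_push {V : Type u} [Fintype V] {T : Type} [Fintype T] {N : ℕ} (π : Fin N → T) (K : ℕ)
    (hK : ∀ a, (univ.filter (fun x => π x = a)).card = K) (Φ : (V → T) → ℝ) :
    ∑ f : V → Fin N, Φ (fun v => π (f v)) = (K : ℝ) ^ (Fintype.card V) * ∑ g : V → T, Φ g := by
  have h1 : ∀ f : V → Fin N, Φ (fun v => π (f v)) =
      ∑ g : V → T, if (fun v => π (f v)) = g then Φ g else 0 := by
    intro f
    rw [Finset.sum_ite_eq]
    simp
  simp_rw [h1]
  rw [Finset.sum_comm, Finset.mul_sum]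
  apply Finset.sum_congr rfl
  intro g _
  rw [← Finset.sum_filter, Finset.sum_const, nsmul_eq_mul]
  congr 1
  have h2 : (univ.filter (fun f : V → Fin N => (fun v => π (f v)) = g)) =
      Fintype.piFinset (fun v => univ.filter (fun x => π x = g v)) := by
    ext f
    simp [Fintype.mem_piFinset, funext_iff]
  rw [h2, Fintype.card_piFinset]
  simp [hK]

theorem avg_push {V : Type u} [Fintype V] {T : Type} [Fintype T] {N : ℕ} (π : Fin N → T) (K : ℕ)
    (hK0 : 0 < K) (hK : ∀ a, (univ.filter (fun x => π x = a)).card = K) (Φ : (V → T) → ℝ) :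
    avg (fun f : V → Fin N => Φ (fun v => π (f v))) = avgL Φ := by
  unfold avg avgL
  have h1 := sum_push π K hK Φ
  have h2 := sum_push (V := V) π K hK (fun _ => 1)
  have h3 : (Fintype.card (V → Fin N) : ℝ) =
      (K : ℝ) ^ (Fintype.card V) * (Fintype.card (V → T) : ℝ) := by
    rw [Finset.sum_const, Finset.sum_const, Finset.card_univ, Finset.card_univ] at h2
    simp only [nsmul_eq_mul, mul_one] at h2
    exact h2
  rw [h1, h3, mul_div_mul_left]
  positivity

theorem dep_of_lip {V : Type u} [Fintype V] {α : Type} (Ψ : (V → α) → ℝ) (c : V → ℝ)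
    (h : ∀ v (f f' : V → α), (∀ w, w ≠ v → f w = f' w) → |Ψ f - Ψ f'| ≤ c v) (f f' : V → α)
    (hff : ∀ v, c v ≠ 0 → f v = f' v) : Ψ f = Ψ f' := by
  have key : ∀ D : Finset V, (∀ v ∈ D, c v = 0) →
      Ψ (fun v => if v ∈ D then f' v else f v) = Ψ f := by
    intro D
    induction D using Finset.induction_on with
    | empty => simp
    | insert a D ha ih =>
      intro hD
      rw [← ih (fun v hv => hD v (mem_insert_of_mem hv))]
      have h1 := h a (fun v => if v ∈ insert a D then f' v else f v)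
        (fun v => if v ∈ D then f' v else f v) (by
          intro w hw
          simp [mem_insert, hw])
      rw [hD a (mem_insert_self a D)] at h1
      have := abs_nonpos_iff.1 h1
      linarith
  have h2 := key (univ.filter (fun v => c v = 0)) (by simp)
  rw [← h2]
  congr 1
  funext v
  by_cases hv : c v = 0
  · simp [hv]
  · simp [hv, hff v hv]

/-- the package of one test -/
theorem pack_Q {V : Type u} [Fintype V] (hPBM : Stmt_PBM.{u}) {T : Type} [Fintype T] (M : ℕ)
    (π : Fin (M.factorial) → T) (K : ℕ) (hK0 : 0 < K)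
    (hK : ∀ a, (univ.filter (fun x => π x = a)).card = K) (Φ : (V → T) → ℝ) (c : V → ℝ)
    (t s : ℝ) (d : ℕ) (hd : 1 ≤ d) (Tm : ℝ) (hT : 4 * Tm * d ≤ s) (ht : 0 < t)
    (hlip : ∀ v (f f' : V → T), (∀ w, w ≠ v → f w = f' w) → |Φ f - Φ f'| ≤ c v)
    (hbig : s * (Real.log d ^ 2 + ((univ.filter (fun v => c v ≠ 0)).card : ℝ) / d) *
      ∑ v, c v ^ 2 ≤ t ^ 2) :
    PackI Tm (univ.filter (fun v => c v ≠ 0)) (2 * Real.exp (-(s / 2 * Real.log d ^ 2)))
      (fun f : V → Fin (M.factorial) => |Φ (fun v => π (f v)) - avgL Φ| ≤ t) := by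
  have hlip' : ∀ v (f f' : V → Fin (M.factorial)), (∀ w, w ≠ v → f w = f' w) →
      |Φ (fun v => π (f v)) - Φ (fun v => π (f' v))| ≤ c v := by
    intro v f f' hff
    apply hlip
    intro w hw
    rw [hff w hw]
  have hdep : ∀ f f' : V → Fin (M.factorial), (∀ v, c v ≠ 0 → f v = f' v) →
      Φ (fun v => π (f v)) = Φ (fun v => π (f' v)) :=
    fun f f' hff => dep_of_lip (fun f : V → Fin (M.factorial) => Φ (fun v => π (f v))) c hlip'
      f f' hff
  rcases (univ.filter (fun v => c v ≠ 0)).eq_empty_or_nonempty with hS0 | hS0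
  · refine ⟨PEmpty, inferInstance, fun x => x.elim, fun x => x.elim, fun x => x.elim,
      fun x => x.elim, fun x => x.elim, ?_, ?_⟩
    · rw [Finset.univ_eq_empty, Finset.sum_empty]
      positivity
    · intro f _
      have h1 : avgL Φ = Φ (fun v => π (f v)) := by
        rw [← avg_push π K hK0 hK Φ]
        unfold avg
        have h2 : ∀ f' : V → Fin (M.factorial), Φ (fun v => π (f' v)) = Φ (fun v => π (f v)) := by
          intro f'
          apply hdep
          intro v hv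
          exfalso
          have : v ∈ univ.filter (fun v => c v ≠ 0) := mem_filter.2 ⟨mem_univ _, hv⟩
          rw [hS0] at this
          simp at this
        rw [Finset.sum_congr rfl (fun f' _ => h2 f'), Finset.sum_const, Finset.card_univ,
          nsmul_eq_mul]
        have h3 : (0 : ℝ) < (Fintype.card (V → Fin (M.factorial)) : ℝ) := by
          exact_mod_cast Fintype.card_pos_iff.2 ⟨f⟩
        field_simp
      rw [h1, sub_self, abs_zero]
      exact ht.le
  set S := univ.filter (fun v => c v ≠ 0) with hSdef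
  refine ⟨PUnit, inferInstance, fun _ => S, fun _ f => t < |Φ (fun v => π (f v)) - avgL Φ|,
    ?_, fun _ => hS0, fun _ => subset_rfl, ?_, ?_⟩
  · intro _ f f' hff
    have h1 : Φ (fun v => π (f v)) = Φ (fun v => π (f' v)) := by
      apply hdep
      intro v hv
      exact hff v (mem_filter.2 ⟨mem_univ _, hv⟩)
    simp only [h1]
  · have hpos : 0 < ∑ v, c v ^ 2 := by
      obtain ⟨v, hv⟩ := hS0
      have hv' : c v ≠ 0 := (mem_filter.1 hv).2
      have h1 : 0 < c v ^ 2 := by positivity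
      exact lt_of_lt_of_le h1 (Finset.single_le_sum (f := fun v => c v ^ 2)
        (fun i _ => sq_nonneg _) (mem_univ v))
    have h2 := hPBM (M.factorial) (fun f : V → Fin (M.factorial) => Φ (fun v => π (f v))) c
      (∑ v, c v ^ 2) t (Nat.factorial_pos M) hlip' le_rfl hpos ht.le
    rw [avg_push π K hK0 hK Φ] at h2
    have h3 : pr (fun f : V → Fin (M.factorial) => t < |Φ (fun v => π (f v)) - avgL Φ|) ≤
        2 * Real.exp (-t ^ 2 / (2 * ∑ v, c v ^ 2)) := by
      refine le_trans ?_ h2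
      unfold pr
      apply div_le_div_of_nonneg_right _ (Nat.cast_nonneg _)
      have h9 := card_le_card (monotone_filter_right (univ : Finset (V → Fin (M.factorial)))
        (p := fun f => t < |Φ (fun v => π (f v)) - avgL Φ|)
        (q := fun f => t ≤ |Φ (fun v => π (f v)) - avgL Φ|)
        (fun f _ hf => le_of_lt hf))
      exact_mod_cast h9
    have hd0 : (0 : ℝ) < d := by exact_mod_cast hd
    rw [Finset.univ_unique, Finset.sum_singleton]
    calc pr (fun f : V → Fin (M.factorial) => t < |Φ (fun v => π (f v)) - avgL Φ|) *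
          Real.exp (2 * Tm * (S.card : ℝ))
        ≤ 2 * Real.exp (-t ^ 2 / (2 * ∑ v, c v ^ 2)) * Real.exp (2 * Tm * (S.card : ℝ)) := by
          apply mul_le_mul_of_nonneg_right h3 (Real.exp_pos _).le
      _ = 2 * Real.exp (-t ^ 2 / (2 * ∑ v, c v ^ 2) + 2 * Tm * (S.card : ℝ)) := by
          rw [mul_assoc, ← Real.exp_add]
      _ ≤ 2 * Real.exp (-(s / 2 * Real.log d ^ 2)) := by
          apply mul_le_mul_of_nonneg_left _ (by norm_num)
          apply Real.exp_le_exp.2
          have h4 : s / 2 * (Real.log d ^ 2 + (S.card : ℝ) / d) ≤ t ^ 2 / (2 * ∑ v, c v ^ 2) := by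
            rw [le_div_iff₀ (by positivity)]
            linarith
          have h5 : 2 * Tm * (S.card : ℝ) ≤ s / 2 * ((S.card : ℝ) / d) := by
            have h6 : (0 : ℝ) ≤ (S.card : ℝ) / d := by positivity
            have h7 : 2 * Tm * (S.card : ℝ) = 4 * Tm * d / 2 * ((S.card : ℝ) / d) := by
              field_simp
              ring
            rw [h7]
            apply mul_le_mul_of_nonneg_right _ h6
            linarith
          have h8 : -t ^ 2 / (2 * ∑ v, c v ^ 2) = -(t ^ 2 / (2 * ∑ v, c v ^ 2)) := by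
            rw [neg_div]
          rw [h8]
          nlinarith
  · intro f hf
    exact not_lt.mp (hf PUnit.unit)

/-- numbers for the tests -/
theorem num_test (a s : ℝ) (ha : 0 < a) (hs : 0 < s) : ∃ d1 : ℕ, ∀ d : ℕ, d1 ≤ d →
    (d : ℝ) ^ 10 * (2 * Real.exp (-(a * Real.log d ^ 2))) ≤ s / (32 * (d + 1)) := by
  obtain ⟨n1, hn1⟩ := exists_nat_ge (Real.exp (13 / a))
  obtain ⟨n2, hn2⟩ := exists_nat_ge (128 / s)
  refine ⟨max 3 (max n1 n2), ?_⟩
  intro d hd
  have hd3 : (3 : ℝ) ≤ d := by exact_mod_cast (le_max_left _ _).trans hd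
  have hdn1 : (n1 : ℝ) ≤ d := by
    exact_mod_cast (le_max_left _ _).trans ((le_max_right _ _).trans hd)
  have hdn2 : (n2 : ℝ) ≤ d := by
    exact_mod_cast (le_max_right _ _).trans ((le_max_right _ _).trans hd)
  have hd0 : (0 : ℝ) < d := by linarith
  have hlog : 13 / a ≤ Real.log d := by
    rw [Real.le_log_iff_exp_le hd0]
    exact hn1.trans hdn1
  have hlog0 : 0 < Real.log d := lt_of_lt_of_le (by positivity) hlog
  have h1 : 13 * Real.log d ≤ a * Real.log d ^ 2 := by
    rw [div_le_iff₀ ha] at hlog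
    nlinarith
  have h2 : Real.exp (-(a * Real.log d ^ 2)) ≤ ((d : ℝ) ^ 13)⁻¹ := by
    have h3 : ((d : ℝ) ^ 13)⁻¹ = Real.exp (-(13 * Real.log d)) := by
      rw [Real.exp_neg, show (13 : ℝ) * Real.log d = ((13 : ℕ) : ℝ) * Real.log d by norm_num,
        Real.exp_nat_mul, Real.exp_log hd0]
    rw [h3]
    exact Real.exp_le_exp.2 (by linarith)
  have h4 : 128 ≤ s * d := by
    have := hn2.trans hdn2
    rw [div_le_iff₀ hs] at this
    linarith
  calc (d : ℝ) ^ 10 * (2 * Real.exp (-(a * Real.log d ^ 2)))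
      ≤ (d : ℝ) ^ 10 * (2 * ((d : ℝ) ^ 13)⁻¹) := by gcongr
    _ = 2 / (d : ℝ) ^ 3 := by field_simp
    _ ≤ s / (32 * (d + 1)) := by
        rw [div_le_div_iff₀ (by positivity) (by positivity)]
        have h5 : (d : ℝ) + 1 ≤ 2 * d := by linarith
        calc 2 * (32 * ((d : ℝ) + 1)) ≤ 2 * (32 * (2 * d)) := by gcongr
          _ = 128 * d := by ring
          _ ≤ (s * d) * d := by gcongr
          _ ≤ (s * d) * d * d := by
              have : (1 : ℝ) ≤ d := by linarith
              have h7 : 0 ≤ s * d * d := by positivity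
              nlinarith
          _ = s * (d : ℝ) ^ 3 := by ring

/-- the labelling of a choice of permutations -/
noncomputable def lbl {T : Type} {M : ℕ} (e : T ≃ Fin M) (z : Fin M) (x : Fin (M.factorial)) : T :=
  e.symm (per M x z)

/-- LLX for a finite family of graphs, with functional tests. -/
def Stmt_LLXQ : Prop :=
  ∀ (T : Type) [Fintype T] (F M : ℕ) (σ δ c1 s0 : ℝ) (e : T ≃ Fin M), 0 < M → 0 < σ → σ ≤ 1 →
    0 < δ → δ ≤ 1 → 0 < c1 → σ ≤ s0 →
    ∃ d0 : ℕ, 1 ≤ d0 ∧
    ∀ {V : Type u} [Fintype V] (Gs : Fin F → SimpleGraph V) (d : ℕ) (z : Fin M)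
      (J : Type u) [Fintype J] (Φ : J → (V → T) → ℝ) (c : J → V → ℝ) (t : J → ℝ), d0 ≤ d →
      (∀ i v, (nb (Gs i) v).card ≤ d) → TQ s0 d Φ c t →
      ∃ f : V → Fin (M.factorial), (∀ i,
        (∀ v (P : Finset (Fin M)),
          |((nb (Gs i) v ∩ cc M id (fun _ => z) f P).card : ℝ) -
            (P.card : ℝ) / M * (nb (Gs i) v).card| ≤ δ * d ∧
          ee (Gs i) (nb (Gs i) v ∩ cc M id (fun _ => z) f P)
              (nb (Gs i) v ∩ cc M id (fun _ => z) f P) ≤
            ((P.card : ℝ) / M) ^ 2 * ee (Gs i) (nb (Gs i) v) (nb (Gs i) v) + δ * (d : ℝ) ^ 2) ∧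
        ∀ (P Q : Finset (Fin M)) (L : ℕ) (w : ℕ → V) (R S : Finset V) (θ1 θ2 : ℝ),
          P.card = Q.card → P.Nonempty → LWalk (Gs i) L w → 1 ≤ L → 0 ≤ θ1 → 0 ≤ θ2 →
          (∀ v ∈ R ∪ S, ∃ i ≤ L, w i = v) →
          c1 * (L * d) ≤ Real.log d *
            (((hit (Gs i) θ2 S).card : ℝ) + (hit (Gs i) θ1 R).card) →
          GoodF (Gs i) d M σ id (fun _ => z) P Q (hit (Gs i) θ2 S) (hit (Gs i) θ1 R) f) ∧
      ∀ j, |Φ j (fun v => lbl e z (f v)) - avgL (Φ j)| ≤ t j

theorem stmt_LLXQ' (hPBM : Stmt_PBM.{u}) (hBALL : Stmt_BALL.{u}) (hLPKX : Stmt_LPKX.{u})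
    (hLPKV : Stmt_LPKV.{u}) (hLNUM : Stmt_LNUM) : Stmt_LLXQ.{u} := by
  intro T _ F M σ δ c1 s0 e hM hσ hσ1 hδ hδ1 hc1 hs0
  have hMr : (1 : ℝ) ≤ M := by exact_mod_cast hM
  obtain ⟨dX, hdX3, HX⟩ := hLPKX M σ hM hσ hσ1
  obtain ⟨dV, hdV1, HV⟩ := hLPKV M σ δ hM hσ hσ1 hδ hδ1
  have hs0' : 0 < σ ^ 2 / (200 * (M : ℝ) ^ 5) := by positivity
  have he0 : 0 < δ ^ 2 / (32 * (M : ℝ)) := by positivity
  have hMF : M ≤ M * (F + 1) := Nat.le_mul_of_pos_right M (Nat.succ_pos F)
  obtain ⟨dN, hdN3, HN⟩ := hLNUM (M * (F + 1)) (σ ^ 2 / (200 * (M : ℝ) ^ 5)) c1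
    (δ ^ 2 / (32 * (M : ℝ))) (Nat.mul_pos hM (Nat.succ_pos F)) hs0' hc1 he0
  have hs00 : 0 < s0 := lt_of_lt_of_le hσ hs0
  obtain ⟨dT, hdT⟩ := num_test (s0 / 2) (σ ^ 2 / (200 * (M : ℝ) ^ 5)) (by positivity) hs0'
  refine ⟨max dT (max dX (max dV dN)), le_trans (le_trans (by omega) (le_max_left _ _))
    (le_max_right _ _), ?_⟩
  intro V _ Gs d z J _ Φ c t hd' hdeg hTQ
  have hdT' : dT ≤ d := (le_max_left _ _).trans hd'
  have hd : max dX (max dV dN) ≤ d := (le_max_right _ _).trans hd'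
  have hB : Blocks M (id : V → V) (fun _ => z) := by
    intro v w h1 _
    exact h1
  set blk : V → V := id with hblk
  set pos : V → Fin M := fun _ => z with hpos
  have hdX : dX ≤ d := (le_max_left _ _).trans hd
  have hdV : dV ≤ d := (le_max_left _ _).trans ((le_max_right _ _).trans hd)
  have hdN : dN ≤ d := (le_max_right _ _).trans ((le_max_right _ _).trans hd)
  have hd3 : (3 : ℝ) ≤ d := by exact_mod_cast hdX3.trans hdX
  have hlog : 0 ≤ Real.log d := Real.log_nonneg (by linarith)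
  have hs1 : σ ^ 2 / (200 * (M : ℝ) ^ 5) ≤ 1 := by
    rw [div_le_one (by positivity)]
    have h1 : σ ^ 2 ≤ 1 := by nlinarith
    have h2 : (1 : ℝ) ≤ (M : ℝ) ^ 5 := one_le_pow₀ hMr
    linarith
  have hs2 : σ ^ 2 / (200 * (M : ℝ) ^ 5) ≤ s0 := by
    have h1 : σ ^ 2 ≤ s0 := by nlinarith
    have h2 : (1 : ℝ) ≤ (M : ℝ) ^ 5 := one_le_pow₀ hMr
    rw [div_le_iff₀ (by positivity)]
    nlinarith
  obtain ⟨Lm, hLm⟩ := exists_nat_ge (Real.log d * (2 * Fintype.card V) / (c1 * d))
  obtain ⟨hN0, hNL⟩ := HN d hdN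
  set s : ℝ := σ ^ 2 / (200 * (M : ℝ) ^ 5) with hs
  set Tm : ℝ := s / (16 * (d + 1)) with hTm
  have hT0 : 0 ≤ Tm := by positivity
  set W0 : ℝ := 20 * 4 ^ M * Real.exp (-(δ ^ 2 / (32 * M) * d)) with hW0
  set WL : ℕ → ℝ := fun L => 20 * 4 ^ M * (d + 2) ^ 2 * (4 * (d + 1)) ^ (L + 1) *
          Real.exp (-(3 / 4 * s * (c1 * L * d / Real.log d))) with hWL
  have hW0' : 0 ≤ W0 := by positivity
  have hWL' : ∀ L, 0 ≤ WL L := fun L => by simp only [hWL]; positivity
  have h4 : (4 : ℝ) ^ M ≤ 4 ^ (M * (F + 1)) := pow_le_pow_right₀ (by norm_num) hMF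
  have hF1 : (0 : ℝ) < (F : ℝ) + 1 := by positivity
  -- the numbers with the factor `F + 1`
  have hN0' : (M : ℝ) * (d + 1) ^ 4 * W0 ≤ Tm / 4 / (F + 1) := by
    rw [le_div_iff₀ hF1]
    refine le_trans ?_ hN0
    have : (M : ℝ) * (d + 1) ^ 4 * W0 * (F + 1) = ((M * (F + 1) : ℕ) : ℝ) * (d + 1) ^ 4 *
        (20 * 4 ^ M * Real.exp (-(δ ^ 2 / (32 * M) * d))) := by
      rw [hW0]; push_cast; ring
    rw [this]
    gcongr
  have hNL' : ∀ L : ℕ, 1 ≤ L → (M : ℝ) * (d + 1) ^ (L + 3) * WL L ≤ Tm / 4 / 2 ^ L / (F + 1) := by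
    intro L hL
    rw [le_div_iff₀ hF1]
    refine le_trans ?_ (hNL L hL)
    have : (M : ℝ) * (d + 1) ^ (L + 3) * WL L * (F + 1) = ((M * (F + 1) : ℕ) : ℝ) *
        (d + 1) ^ (L + 3) * (20 * 4 ^ M * (d + 2) ^ 2 * (4 * (d + 1)) ^ (L + 1) *
          Real.exp (-(3 / 4 * s * (c1 * L * d / Real.log d)))) := by
      simp only [hWL]; push_cast; ring
    rw [this]
    gcongr
  have hold : ∀ y : V, ∑ r ∈ univ.filter (fun r : V × (Fin (Lm + 1) × Fin F) =>
            y ∈ (if (r.2.1 : ℕ) = 0 then (lball (Gs r.2.2) 4 r.1).image blk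
              else (lball (Gs r.2.2) (r.2.1 + 3) r.1).image blk)),
            (if (r.2.1 : ℕ) = 0 then W0 else WL r.2.1) ≤ Tm / 2 := by
    intro y
    have h1 : ∑ r ∈ univ.filter (fun r : V × (Fin (Lm + 1) × Fin F) =>
          y ∈ (if (r.2.1 : ℕ) = 0 then (lball (Gs r.2.2) 4 r.1).image blk
            else (lball (Gs r.2.2) (r.2.1 + 3) r.1).image blk)),
          (if (r.2.1 : ℕ) = 0 then W0 else WL r.2.1) =
        ∑ L : Fin (Lm + 1), ∑ i : Fin F, ∑ x : V,
          (if y ∈ (if (L : ℕ) = 0 then (lball (Gs i) 4 x).image blk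
            else (lball (Gs i) (L + 3) x).image blk) then
            (if (L : ℕ) = 0 then W0 else WL L) else 0) := by
      rw [Finset.sum_filter, Fintype.sum_prod_type, Finset.sum_comm, Fintype.sum_prod_type]
    rw [h1]
    have h2 : ∀ (L : Fin (Lm + 1)) (i : Fin F), (∑ x : V,
          (if y ∈ (if (L : ℕ) = 0 then (lball (Gs i) 4 x).image blk
            else (lball (Gs i) (L + 3) x).image blk) then
            (if (L : ℕ) = 0 then W0 else WL L) else 0)) ≤
          Tm / 4 * (1 / 2) ^ (L : ℕ) / (F + 1) := by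
      intro L i
      by_cases hL : (L : ℕ) = 0
      · simp only [hL, if_true, pow_zero, mul_one]
        rw [← Finset.sum_filter, Finset.sum_const, nsmul_eq_mul]
        refine le_trans ?_ hN0'
        exact mul_le_mul_of_nonneg_right
          (Pool.Agent.Work.MP_db9399_px.helper6.LLXAux.roots hBALL (Gs i) d M (hdeg i) blk pos
            hB 4 y) hW0'
      · simp only [hL, if_false]
        rw [← Finset.sum_filter, Finset.sum_const, nsmul_eq_mul]
        have h3 := hNL' L (Nat.one_le_iff_ne_zero.2 hL)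
        have h4 : Tm / 4 * (1 / 2) ^ (L : ℕ) / (F + 1) = Tm / 4 / 2 ^ (L : ℕ) / (F + 1) := by
          rw [one_div, inv_pow, div_eq_mul_inv (Tm / 4) (2 ^ (L : ℕ))]
        rw [h4]
        refine le_trans ?_ h3
        exact mul_le_mul_of_nonneg_right
          (Pool.Agent.Work.MP_db9399_px.helper6.LLXAux.roots hBALL (Gs i) d M (hdeg i) blk pos
            hB (L + 3) y) (hWL' _)
    have h5 : ∀ L : Fin (Lm + 1), (∑ i : Fin F, ∑ x : V,
          (if y ∈ (if (L : ℕ) = 0 then (lball (Gs i) 4 x).image blk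
            else (lball (Gs i) (L + 3) x).image blk) then
            (if (L : ℕ) = 0 then W0 else WL L) else 0)) ≤ Tm / 4 * (1 / 2) ^ (L : ℕ) := by
      intro L
      refine (Finset.sum_le_sum fun i _ => h2 L i).trans ?_
      rw [Finset.sum_const, Finset.card_univ, Fintype.card_fin, nsmul_eq_mul]
      have h6 : 0 ≤ Tm / 4 * (1 / 2) ^ (L : ℕ) := by positivity
      rw [mul_div_assoc', div_le_iff₀ hF1]
      nlinarith
    refine (Finset.sum_le_sum fun L _ => h5 L).trans ?_
    rw [← Finset.mul_sum, ← Finset.sum_range (fun L => ((1 : ℝ) / 2) ^ L)]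
    have h3 := sum_geometric_two_le (Lm + 1)
    nlinarith
  set Wt : ℝ := 2 * Real.exp (-(s0 / 2 * Real.log d ^ 2)) with hWt
  have hWt0 : 0 ≤ Wt := by positivity
  have hWtT : (d : ℝ) ^ 10 * Wt ≤ Tm / 2 := by
    have h1 := hdT d hdT'
    have h2 : Tm / 2 = s / (32 * (d + 1)) := by
      rw [hTm]
      field_simp
      norm_num
    rw [h2]
    exact h1
  obtain ⟨K, hK0, hK⟩ := fiber_card M z
  have hK' : ∀ a : T, (univ.filter (fun x : Fin (M.factorial) => lbl e z x = a)).card = K := by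
    intro a
    rw [← hK (e a)]
    congr 1
    ext x
    simp only [mem_filter, mem_univ, true_and, lbl, Equiv.symm_apply_eq]
  have key := Pool.Agent.Work.MP_db9399_all.stmt_LLLI V (M.factorial)
    ((V × (Fin (Lm + 1) × Fin F)) ⊕ J) Tm
    (Sum.elim (fun r => if (r.2.1 : ℕ) = 0 then (lball (Gs r.2.2) 4 r.1).image blk
      else (lball (Gs r.2.2) (r.2.1 + 3) r.1).image blk)
      (fun j => univ.filter (fun v => c j v ≠ 0)))
    (Sum.elim (fun r => if (r.2.1 : ℕ) = 0 then W0 else WL r.2.1) (fun _ => Wt))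
    (Sum.elim (fun r f => if (r.2.1 : ℕ) = 0 then PropV (Gs r.2.2) d M δ blk pos r.1 f
      else PropX (Gs r.2.2) d M σ c1 blk pos r.1 r.2.1 f)
      (fun j f => |Φ j (fun v => lbl e z (f v)) - avgL (Φ j)| ≤ t j))
    (Nat.factorial_pos M) hT0
    (by
      rw [hTm, div_le_iff₀ (by positivity)]
      nlinarith)
    (by
      rintro (r | j)
      · simp only [Sum.elim_inl]
        by_cases hr : (r.2.1 : ℕ) = 0
        · simp only [hr, if_true]
          exact HV (Gs r.2.2) d blk pos r.1 hdV (hdeg _) hB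
        · simp only [hr, if_false]
          exact HX (Gs r.2.2) d r.2.1 c1 blk pos r.1 hdX (Nat.one_le_iff_ne_zero.2 hr) hc1
            (hdeg _) hB
      · simp only [Sum.elim_inr]
        refine pack_Q hPBM M (lbl e z) K hK0 hK' (Φ j) (c j) (t j) s0 d (by
          have : (1 : ℝ) ≤ d := by linarith
          exact_mod_cast this) Tm ?_ (hTQ.t0 j) (hTQ.lip j) (hTQ.big j)
        rw [hTm]
        have h1 : 4 * (s / (16 * ((d : ℝ) + 1))) * d = s * (d / (4 * (d + 1))) := by
          field_simp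
          ring
        rw [h1]
        have h2 : (d : ℝ) / (4 * (d + 1)) ≤ 1 := by
          rw [div_le_one (by positivity)]
          linarith
        have h3 : 0 ≤ (d : ℝ) / (4 * (d + 1)) := by positivity
        have h5 : 0 < s := hs0'
        nlinarith)
    (by
      intro y
      rw [Finset.sum_filter, Fintype.sum_sum_type]
      simp only [Sum.elim_inl, Sum.elim_inr]
      rw [← Finset.sum_filter, ← Finset.sum_filter]
      have h1 := hold y
      have h2 : ∑ j ∈ univ.filter (fun j => y ∈ univ.filter (fun v => c j v ≠ 0)), Wt ≤ Tm / 2 := by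
        rw [Finset.sum_const, nsmul_eq_mul]
        refine le_trans ?_ hWtT
        apply mul_le_mul_of_nonneg_right _ hWt0
        have h3 : (univ.filter (fun j => y ∈ univ.filter (fun v => c j v ≠ 0))) =
            univ.filter (fun j => c j y ≠ 0) := by
          ext j
          simp
        rw [h3]
        exact_mod_cast hTQ.num y
      linarith)
  obtain ⟨f, hf⟩ := key
  refine ⟨f, fun i => ⟨?_, ?_⟩, fun j => hf (Sum.inr j)⟩
  · intro v P
    have h1 := hf (Sum.inl (v, (⟨0, Nat.succ_pos _⟩, i)))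
    simp only [Sum.elim_inl, if_true] at h1
    exact h1 P
  · intro P Q L w R S θ1 θ2 hPQ hP hw hL hθ1 hθ2 hRS hc
    have h1 : (L : ℝ) ≤ Lm := by
      refine le_trans ?_ hLm
      rw [le_div_iff₀ (by positivity)]
      have h2 : ((hit (Gs i) θ2 S).card : ℝ) ≤ Fintype.card V := by
        exact_mod_cast Finset.card_le_univ _
      have h3 : ((hit (Gs i) θ1 R).card : ℝ) ≤ Fintype.card V := by
        exact_mod_cast Finset.card_le_univ _
      calc (L : ℝ) * (c1 * d) = c1 * (L * d) := by ring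
        _ ≤ _ := hc
        _ ≤ _ := mul_le_mul_of_nonneg_left (by linarith) hlog
    have h2 : L < Lm + 1 := by
      have : L ≤ Lm := by exact_mod_cast h1
      omega
    have h3 := hf (Sum.inl (w 0, (⟨L, h2⟩, i)))
    simp only [Sum.elim_inl, Nat.one_le_iff_ne_zero.1 hL, if_false] at h3
    exact h3 P Q w R S θ1 θ2 hPQ hP hw rfl hθ1 hθ2 hRS hc

theorem stmt_LLXQ : Stmt_LLXQ.{u} :=
  stmt_LLXQ' Pool.Agent.Work.MP_db9399_px.helper31.stmt_PBM
    Pool.Agent.Work.MP_db9399_px.helper99.stmt_BALL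
    (Pool.Agent.Work.MP_db9399_px.helper50.LPKX.stmt_LPKX
      (Pool.Agent.Work.MP_db9399_px.helper50.stmt_EVF
        Pool.Agent.Work.MP_db9399_px.helper31.stmt_PBM
        Pool.Agent.Work.MP_db9399_px.helper31.stmt_UNI Pool.Agent.Work.MP_db9399_px.lin_holds)
      Pool.Agent.Work.MP_db9399_px.helper31.stmt_CNT Pool.Agent.Work.MP_db9399_px.helper99.stmt_BALL)
    (Pool.Agent.Work.MP_db9399_px.helper89.stmt_LPKV Pool.Agent.Work.MP_db9399_px.lin_holds
      (Pool.Agent.Work.MP_db9399_px.helper83.stmt_EVS Pool.Agent.Work.MP_db9399_px.helper31.stmt_PBM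
        Pool.Agent.Work.MP_db9399_px.helper31.stmt_UNI))
    Pool.Agent.Work.MP_db9399_px.helper23.stmt_LNUM

theorem TQ_mono {V : Type u} [Fintype V] {T : Type} {J : Type u} [Fintype J] {s s' : ℝ} {d : ℕ}
    {Φ : J → (V → T) → ℝ} {c : J → V → ℝ} {t : J → ℝ} (h : TQ s d Φ c t) (hs : s' ≤ s) :
    TQ s' d Φ c t := by
  refine ⟨h.c0, h.lip, h.num, h.t0, fun j => le_trans ?_ (h.big j)⟩
  apply mul_le_mul_of_nonneg_right _ (Finset.sum_nonneg fun _ _ => sq_nonneg _)
  apply mul_le_mul_of_nonneg_right hs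
  positivity

theorem stmt_LABQ : Stmt_LABQ.{u} := by
  intro T _ _ F σ' c1' ρ' s hσ' hc1' hρ' hs
  have hM : 0 < Fintype.card T := Fintype.card_pos
  set ρ : ℝ := min ρ' 1 with hρdef
  have hρ : 0 < ρ := lt_min hρ' one_pos
  have hρ1 : ρ ≤ 1 := min_le_right _ _
  set σ : ℝ := min (σ' * ρ ^ 2) s with hσdef
  have hσσ : σ ≤ σ' * ρ ^ 2 := min_le_left _ _
  have hσs : σ ≤ s := min_le_right _ _
  set c1 : ℝ := c1' * ρ with hc1def
  have hσ : 0 < σ := lt_min (by positivity) hs
  have hc1 : 0 < c1 := by positivity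
  obtain ⟨e⟩ : Nonempty (T ≃ Fin (Fintype.card T)) := ⟨Fintype.equivFin T⟩
  have hm0' : 0 < min σ 1 := lt_min hσ one_pos
  have hm1' : min σ 1 ≤ 1 := min_le_right _ _
  have hm2' : min σ 1 ≤ σ := min_le_left _ _
  obtain ⟨d0, hd01, h⟩ := stmt_LLXQ.{u} T F (Fintype.card T)
    (min σ 1 / 2) (min σ 1) c1 s e hM (by positivity) (by linarith) hm0' hm1' hc1 (by linarith)
  refine ⟨d0, ?_⟩
  intro V _ Gs d Ds J _ Φ c t hd hdeg hDs hTQ
  have : NeZero (Fintype.card T) := ⟨hM.ne'⟩
  obtain ⟨f, hf, hft⟩ := h Gs d 0 J Φ c t hd hdeg hTQ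
  have hcl : ∀ P : Finset T, cl (fun v => lbl e 0 (f v)) P =
      cc (Fintype.card T) id (fun _ => 0) f (P.map e.toEmbedding) := by
    intro P
    ext v
    unfold cl cc atm lbl
    rw [mem_filter, mem_filter]
    simp only [mem_univ, true_and, mem_map, Equiv.coe_toEmbedding]
    constructor
    · intro h1
      exact ⟨_, h1, by simp⟩
    · rintro ⟨t, h1, h2⟩
      have h3 : e.symm (per (Fintype.card T) (f v) 0) = t := by
        rw [Equiv.symm_apply_eq]
        exact h2.symm
      rw [h3]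
      exact h1
  have hden : ∀ P : Finset T, ((P.map e.toEmbedding).card : ℝ) / (Fintype.card T : ℝ) = den P := by
    intro P
    rw [card_map]
    rfl
  refine ⟨fun v => lbl e 0 (f v), fun i => ?_, hft⟩
  refine LabP_rescale (Gs i) d (Ds i) σ σ' c1 c1' ρ _ ?_ hρ hρ1 ?_ (hDs i).2
    (lt_of_lt_of_le hd01 hd) hσ'.le hσσ hc1'.le le_rfl
  swap
  · exact (mul_le_mul_of_nonneg_right (min_le_left _ _) (Nat.cast_nonneg _)).trans (hDs i).1
  obtain ⟨hf1, hf2⟩ := hf i
  set G := Gs i with hG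
  refine ⟨?_, ?_, ?_⟩
  · intro v P
    rw [hcl, ← hden]
    refine (hf1 v _).1.trans ?_
    exact mul_le_mul_of_nonneg_right (min_le_left _ _) (Nat.cast_nonneg _)
  · intro v P
    rw [hcl, ← hden]
    refine (hf1 v _).2.trans ?_
    have : min σ 1 * (d : ℝ) ^ 2 ≤ σ * (d : ℝ) ^ 2 :=
      mul_le_mul_of_nonneg_right (min_le_left _ _) (by positivity)
    linarith
  · intro P Q L w R S θ1 θ2 hPQ hP hw hL h1 h2 hRS hc
    obtain ⟨g1, g2, g3⟩ := hf2 (P.map e.toEmbedding) (Q.map e.toEmbedding) L w R S θ1 θ2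
      (by rw [card_map, card_map, hPQ]) (by rwa [map_nonempty]) hw hL h1 h2 hRS hc
    unfold Good
    rw [hcl, hcl]
    rw [hden] at g1 g2 g3
    have hp0 := den_nonneg P
    have hp1 := den_le_one P
    have hm0 : 0 ≤ min σ 1 := by positivity
    have hm1 : min σ 1 ≤ σ := min_le_left _ _
    set A := hit G θ2 S with hA
    set B := hit G θ1 R with hB
    set CP := cc (Fintype.card T) id (fun _ => 0) f (P.map e.toEmbedding) with hCP
    set CQ := cc (Fintype.card T) id (fun _ => 0) f (Q.map e.toEmbedding) with hCQ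
    set p := den P with hp
    have hs : (0 : ℝ) ≤ (A.card : ℝ) + B.card := by positivity
    have hk : min σ 1 / 2 * p * ((A.card : ℝ) + B.card) ≤ min σ 1 / 2 * ((A.card : ℝ) + B.card) := by
      apply mul_le_mul_of_nonneg_right _ hs
      nlinarith
    have hk2 : min σ 1 / 2 * ((A.card : ℝ) + B.card) ≤ σ * ((A.card : ℝ) + B.card) :=
      mul_le_mul_of_nonneg_right (by linarith) hs
    refine ⟨?_, g2.trans (hk.trans hk2), g3.trans (hk.trans hk2)⟩
    have hB2 : CQ \ (B ∩ CQ) = CQ \ B := by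
      ext x
      simp only [mem_sdiff, mem_inter]
      tauto
    unfold ff at g1
    rw [hB2] at g1
    have hd0 : (0 : ℝ) ≤ d := Nat.cast_nonneg _
    have e1 : ee G (A ∩ CP) (CQ \ B) - p ^ 2 * ee G A (univ \ B) =
        (ee G (A ∩ CP) (CQ \ B) + p * d / 2 * (((B ∩ CQ).card : ℝ) - (A ∩ CP).card) -
          p ^ 2 * (ee G A (univ \ B) + d / 2 * ((B.card : ℝ) - A.card))) +
        (p * d / 2 * (((A ∩ CP).card : ℝ) - p * A.card) -
          p * d / 2 * (((B ∩ CQ).card : ℝ) - p * B.card)) := by ring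
    rw [e1]
    have hq : 0 ≤ p * d / 2 := by positivity
    have g2' := mul_le_mul_of_nonneg_left g2 hq
    have g3' := mul_le_mul_of_nonneg_left g3 hq
    have a2 : |p * d / 2 * (((A ∩ CP).card : ℝ) - p * A.card)| ≤
        p * d / 2 * (min σ 1 / 2 * p * ((A.card : ℝ) + B.card)) := by
      rw [abs_mul, abs_of_nonneg hq]
      exact g2'
    have a3 : |p * d / 2 * (((B ∩ CQ).card : ℝ) - p * B.card)| ≤
        p * d / 2 * (min σ 1 / 2 * p * ((A.card : ℝ) + B.card)) := by
      rw [abs_mul, abs_of_nonneg hq]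
      exact g3'
    refine (abs_add_le _ _).trans ?_
    refine (add_le_add g1 ((abs_sub _ _).trans (add_le_add a2 a3))).trans ?_
    have e2 : min σ 1 / 2 * p ^ 2 * d * ((A.card : ℝ) + B.card) +
        (p * d / 2 * (min σ 1 / 2 * p * ((A.card : ℝ) + B.card)) +
          p * d / 2 * (min σ 1 / 2 * p * ((A.card : ℝ) + B.card))) =
        min σ 1 * p ^ 2 * (d * ((A.card : ℝ) + B.card)) := by ring
    rw [e2]
    have e3 : min σ 1 * p ^ 2 ≤ σ := by
      have : p ^ 2 ≤ 1 := by nlinarith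
      nlinarith
    calc min σ 1 * p ^ 2 * (d * ((A.card : ℝ) + B.card)) ≤ σ * (d * ((A.card : ℝ) + B.card)) :=
          mul_le_mul_of_nonneg_right e3 (mul_nonneg hd0 hs)
      _ = σ * d * ((A.card : ℝ) + B.card) := by ring

end Pool.Agent.Work.MP_db9399_sw.helper21
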